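import Mathlib

open Finset Matrix

namespace Pool.Agent.Results.MP_8f6a5a_an.Givens

/-- The spectral radius of a real square matrix: the largest modulus of a complex eigenvalue. -/
noncomputable def rho {n : ℕ} (M : Matrix (Fin n) (Fin n) ℝ) : ENNReal :=
  spectralRadius ℂ (M.map Complex.ofReal)

/-- The conditions on `P`: it is symmetric, tridiagonal with strictly positive entries for
`|r - s| ≤ 1`, has spectral radius `1`, and `p_{s-1,s} + p_{s+1,s} ≤ 1` for every `s`. -/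
structure Admissible {n : ℕ} (P : Matrix (Fin n) (Fin n) ℝ) : Prop where
  symm : ∀ r s, P r s = P s r
  zero : ∀ r s : Fin n, ((r : ℕ) + 1 < s ∨ (s : ℕ) + 1 < r) → P r s = 0
  pos : ∀ r s : Fin n, ((r : ℕ) ≤ s + 1 ∧ (s : ℕ) ≤ r + 1) → 0 < P r s
  radius : rho P = 1
  col : ∀ s : Fin n, (∑ r : Fin n, if (r : ℕ) + 1 = s ∨ (s : ℕ) + 1 = r then P r s else 0) ≤ 1

/-- `F = (I - c eᵀ) P`. -/
noncomputable def F {n : ℕ} (P : Matrix (Fin n) (Fin n) ℝ) (c : Fin n → ℝ) :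
    Matrix (Fin n) (Fin n) ℝ :=
  (1 - Matrix.vecMulVec c (fun _ => 1)) * P

/-! ### Linear algebra -/

theorem mem_spectrum {n : ℕ} {M : Matrix (Fin n) (Fin n) ℂ} {k : ℂ} :
    k ∈ spectrum ℂ M ↔ ∃ x : Fin n → ℂ, x ≠ 0 ∧ M *ᵥ x = k • x := by
  rw [spectrum.mem_iff, Matrix.isUnit_iff_isUnit_det, isUnit_iff_ne_zero, not_not,
    ← Matrix.exists_mulVec_eq_zero_iff]
  refine exists_congr fun x => and_congr_right fun _ => ?_
  rw [Matrix.sub_mulVec, sub_eq_zero, Algebra.algebraMap_eq_smul_one, Matrix.smul_mulVec,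
    Matrix.one_mulVec]
  exact eq_comm

variable {n : ℕ}

/-- `x ↦ s x - P x` with `s = 1 + θ i` -/
noncomputable def L (P : Matrix (Fin n) (Fin n) ℝ) (θ : ℝ) (x : Fin n → ℂ) (i : Fin n) : ℂ :=
  (1 + θ * Complex.I) * x i - ∑ j, (P i j : ℂ) * x j

theorem L_symm {P : Matrix (Fin n) (Fin n) ℝ} (hP : ∀ r s, P r s = P s r) (θ : ℝ)
    (x y : Fin n → ℂ) : ∑ i, x i * L P θ y i = ∑ i, L P θ x i * y i := by
  simp only [L, mul_sub, sub_mul, Finset.sum_sub_distrib, Finset.mul_sum, Finset.sum_mul]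
  congr 1
  · exact Finset.sum_congr rfl fun i _ => by ring
  · rw [Finset.sum_comm]
    refine Finset.sum_congr rfl fun i _ => Finset.sum_congr rfl fun j _ => ?_
    rw [hP i j]
    ring

theorem L_bound {P : Matrix (Fin n) (Fin n) ℝ} (hP : ∀ r s, P r s = P s r) {θ : ℝ} (hθ : 0 < θ)
    (x : Fin n → ℂ) : θ ^ 2 * ∑ i, ‖x i‖ ^ 2 ≤ ∑ i, ‖L P θ x i‖ ^ 2 := by
  have h1 : (∑ i, (starRingEnd ℂ) (x i) * L P θ x i).im = θ * ∑ i, ‖x i‖ ^ 2 := by
    have e1 : ∑ i, (starRingEnd ℂ) (x i) * L P θ x i =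
        (1 + θ * Complex.I) * ∑ i, (starRingEnd ℂ) (x i) * x i -
          ∑ i, ∑ j, (P i j : ℂ) * ((starRingEnd ℂ) (x i) * x j) := by
      simp only [L, mul_sub, Finset.sum_sub_distrib, Finset.mul_sum]
      congr 1
      · exact Finset.sum_congr rfl fun i _ => by ring
      · exact Finset.sum_congr rfl fun i _ => Finset.sum_congr rfl fun j _ => by ring
    have e2 : ∑ i, (starRingEnd ℂ) (x i) * x i = ((∑ i, ‖x i‖ ^ 2 : ℝ) : ℂ) := by
      push_cast
      exact Finset.sum_congr rfl fun i _ => by rw [mul_comm, Complex.mul_conj']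
    have e3 : (∑ i, ∑ j, (P i j : ℂ) * ((starRingEnd ℂ) (x i) * x j)).im = 0 := by
      rw [← Complex.conj_eq_iff_im, map_sum]
      simp only [map_sum, map_mul, Complex.conj_ofReal, Complex.conj_conj]
      rw [Finset.sum_comm]
      refine Finset.sum_congr rfl fun i _ => Finset.sum_congr rfl fun j _ => ?_
      rw [hP j i]
      ring
    rw [e1, Complex.sub_im, e3, e2, sub_zero, Complex.mul_im, Complex.ofReal_re, Complex.ofReal_im,
      mul_zero, zero_add]
    congr 1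
    simp
  have h2 : θ * ∑ i, ‖x i‖ ^ 2 ≤ ∑ i, ‖x i‖ * ‖L P θ x i‖ := by
    rw [← h1]
    refine (Complex.im_le_norm _).trans ((norm_sum_le _ _).trans (le_of_eq ?_))
    exact Finset.sum_congr rfl fun i _ => by rw [norm_mul, Complex.norm_conj]
  have h3 : ∑ i, ‖x i‖ * ‖L P θ x i‖ ≤
      θ / 2 * ∑ i, ‖x i‖ ^ 2 + 1 / (2 * θ) * ∑ i, ‖L P θ x i‖ ^ 2 := by
    rw [Finset.mul_sum, Finset.mul_sum, ← Finset.sum_add_distrib]
    refine Finset.sum_le_sum fun i _ => ?_
    have h4 : 0 ≤ 1 / (2 * θ) * (θ * ‖x i‖ - ‖L P θ x i‖) ^ 2 := by positivity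
    have h5 : 1 / (2 * θ) * (θ * ‖x i‖ - ‖L P θ x i‖) ^ 2 =
        θ / 2 * ‖x i‖ ^ 2 + 1 / (2 * θ) * ‖L P θ x i‖ ^ 2 - ‖x i‖ * ‖L P θ x i‖ := by
      field_simp
      ring
    linarith
  have h6 : θ / 2 * ∑ i, ‖x i‖ ^ 2 ≤ 1 / (2 * θ) * ∑ i, ‖L P θ x i‖ ^ 2 := by linarith
  have h7 := mul_le_mul_of_nonneg_left h6 (by positivity : 0 ≤ 2 * θ)
  have h8 : 2 * θ * (1 / (2 * θ) * ∑ i, ‖L P θ x i‖ ^ 2) = ∑ i, ‖L P θ x i‖ ^ 2 := by
    field_simp
  rw [h8] at h7
  linarith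

theorem L_surj {P : Matrix (Fin n) (Fin n) ℝ} (hP : ∀ r s, P r s = P s r) {θ : ℝ} (hθ : 0 < θ)
    (b : Fin n → ℂ) : ∃ x, L P θ x = b := by
  let Lm : (Fin n → ℂ) →ₗ[ℂ] (Fin n → ℂ) :=
    { toFun := L P θ
      map_add' := fun x y => by
        funext i
        simp only [L, Pi.add_apply, mul_add, Finset.sum_add_distrib]
        ring
      map_smul' := fun a x => by
        funext i
        simp only [L, Pi.smul_apply, smul_eq_mul, RingHom.id_apply, mul_sub, Finset.mul_sum]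
        congr 1
        · ring
        · exact Finset.sum_congr rfl fun j _ => by ring }
  have hinj : Function.Injective Lm := by
    rw [injective_iff_map_eq_zero]
    intro x hx
    have h1 := L_bound hP hθ x
    have h2 : ∀ i, L P θ x i = 0 := fun i => congrFun hx i
    simp only [h2, norm_zero] at h1
    have h3 : ∑ i, ‖x i‖ ^ 2 ≤ 0 := by
      have : (0 : ℝ) < θ ^ 2 := by positivity
      by_contra hcon
      push Not at hcon
      have h4 := mul_pos this hcon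
      simp at h1
      linarith
    funext i
    have h4 : ‖x i‖ ^ 2 ≤ ∑ i, ‖x i‖ ^ 2 :=
      Finset.single_le_sum (f := fun i => ‖x i‖ ^ 2) (fun _ _ => by positivity) (Finset.mem_univ i)
    have h5 : ‖x i‖ ^ 2 = 0 := le_antisymm (h4.trans h3) (by positivity)
    simpa using h5
  obtain ⟨x, hx⟩ := (LinearMap.injective_iff_surjective.1 hinj) b
  exact ⟨x, hx⟩

/-- a nonnegative combination of the solution of `(s - P) z = Δ e` that vanishes gives an
eigenvalue `s` of `F` -/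
theorem one_lt_rho {P : Matrix (Fin n) (Fin n) ℝ} (hP : ∀ r s, P r s = P s r) {θ : ℝ} (hθ : 0 < θ)
    {Δ : ℂ} (hΔ : Δ ≠ 0) {z : Fin n → ℂ} (hz : ∀ i, L P θ z i = Δ) {c : Fin n → ℝ}
    (hc : ∑ i, c i = 1) (hcz : ∑ i, (c i : ℂ) * z i = 0) : 1 < rho (F P c) := by
  obtain ⟨u, hu⟩ := L_surj hP hθ (fun i => (c i : ℂ))
  have hu' : ∀ i, L P θ u i = c i := fun i => congrFun hu i
  have hsum : ∑ i, u i = 0 := by
    have h1 := L_symm hP θ u z
    simp only [hz, hu'] at h1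
    rw [hcz, ← Finset.sum_mul] at h1
    exact (mul_eq_zero.1 h1).resolve_right hΔ
  have hu0 : u ≠ 0 := by
    rintro rfl
    have h1 : ∀ i, c i = 0 := by
      intro i
      have := hu' i
      simp [L] at this
      exact_mod_cast this.symm
    simp [h1] at hc
  have hPu : ∀ i, ∑ j, (P i j : ℂ) * u j = (1 + θ * Complex.I) * u i - c i := by
    intro i
    have := hu' i
    unfold L at this
    rw [← this]
    ring
  have hPsum : ∑ i, ∑ j, (P i j : ℂ) * u j = -1 := by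
    simp only [hPu, Finset.sum_sub_distrib, ← Finset.mul_sum, hsum, mul_zero, zero_sub]
    rw [← Complex.ofReal_sum, hc, Complex.ofReal_one]
  have hF : ∀ i j, (((F P c) i j : ℝ) : ℂ) = (P i j : ℂ) - (c i : ℂ) * ∑ k, (P k j : ℂ) := by
    intro i j
    rw [F, Matrix.sub_mul, Matrix.one_mul, Matrix.sub_apply, Matrix.mul_apply]
    simp only [Matrix.vecMulVec_apply, mul_one]
    push_cast
    rw [Finset.mul_sum]
  have heig : (1 + θ * Complex.I : ℂ) ∈ spectrum ℂ ((F P c).map Complex.ofReal) := by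
    rw [mem_spectrum]
    refine ⟨u, hu0, ?_⟩
    funext i
    simp only [Matrix.mulVec, dotProduct, Matrix.map_apply, Pi.smul_apply, smul_eq_mul, hF,
      sub_mul, Finset.sum_sub_distrib, hPu]
    have e : ∑ j, (c i : ℂ) * (∑ k, (P k j : ℂ)) * u j = (c i : ℂ) * ∑ k, ∑ j, (P k j : ℂ) * u j := by
      rw [Finset.sum_comm, Finset.mul_sum]
      refine Finset.sum_congr rfl fun j _ => ?_
      rw [mul_assoc, Finset.sum_mul]
    rw [e, hPsum]
    ring
  have h1 : (1 : ENNReal) < ‖(1 + θ * Complex.I : ℂ)‖₊ := by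
    have h2 : (1 : ℝ) < ‖(1 + θ * Complex.I : ℂ)‖ := by
      rw [Complex.norm_def, Real.lt_sqrt (by norm_num), Complex.normSq_apply]
      simp
      positivity
    exact_mod_cast h2
  refine lt_of_lt_of_le h1 ?_
  unfold rho spectralRadius
  exact le_iSup₂_of_le _ heig le_rfl

/-- the spectral radius from a positive eigenvector -/
theorem rho_eq_one {P : Matrix (Fin n) (Fin n) ℝ} (hP : ∀ r s, 0 ≤ P r s) {v : Fin n → ℝ}
    (hv : ∀ i, 0 < v i) (hPv : ∀ i, ∑ j, P i j * v j = v i) (hn : 0 < n) : rho P = 1 := by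
  unfold rho spectralRadius
  apply le_antisymm
  · refine iSup₂_le fun k hk => ?_
    obtain ⟨x, hx0, hx⟩ := mem_spectrum.1 hk
    obtain ⟨i, -, hi⟩ := Finset.exists_max_image (Finset.univ : Finset (Fin n))
      (fun i => ‖x i‖ / v i) ⟨⟨0, hn⟩, Finset.mem_univ _⟩
    have hM : ∀ j, ‖x j‖ ≤ ‖x i‖ / v i * v j := fun j => by
      have := hi j (Finset.mem_univ _)
      rwa [div_le_iff₀ (hv j)] at this
    have hxi : 0 < ‖x i‖ := by
      by_contra hcon
      have h0 : ‖x i‖ = 0 := le_antisymm (not_lt.1 hcon) (norm_nonneg _)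
      apply hx0
      funext j
      have := hM j
      rw [h0, zero_div, zero_mul] at this
      simpa using this
    have h1 : ‖k‖ * ‖x i‖ ≤ ‖x i‖ := by
      have e := congrFun hx i
      simp only [Matrix.mulVec, dotProduct, Matrix.map_apply, Pi.smul_apply, smul_eq_mul] at e
      rw [← norm_mul, ← e]
      refine (norm_sum_le _ _).trans ?_
      calc ∑ j, ‖(P i j : ℂ) * x j‖ ≤ ∑ j, P i j * v j * (‖x i‖ / v i) := by
            refine Finset.sum_le_sum fun j _ => ?_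
            rw [norm_mul, Complex.norm_real, Real.norm_of_nonneg (hP i j)]
            have := mul_le_mul_of_nonneg_left (hM j) (hP i j)
            linarith
        _ = ‖x i‖ := by
            rw [← Finset.sum_mul, hPv i]
            field_simp [(hv i).ne']
    have h2 : ‖k‖ ≤ 1 := by
      by_contra hcon
      push Not at hcon
      nlinarith
    exact_mod_cast h2
  · have h1 : (1 : ℂ) ∈ spectrum ℂ (P.map Complex.ofReal) := by
      rw [mem_spectrum]
      refine ⟨fun i => (v i : ℂ), fun h => ?_, ?_⟩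
      · have := congrFun h ⟨0, hn⟩
        simp only [Pi.zero_apply, Complex.ofReal_eq_zero] at this
        exact (hv _).ne' this
      · funext i
        simp only [Matrix.mulVec, dotProduct, Matrix.map_apply, Pi.smul_apply, smul_eq_mul, one_mul]
        rw [← hPv i]
        push_cast
        rfl
    refine le_iSup₂_of_le _ h1 ?_
    simp

/-! ### The matrix -/

section

variable (K : ℕ) (τ : ℝ)

/-- coupling between the sites `j` and `j+1` -/
noncomputable def ww (j : ℕ) : ℝ :=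
  if j + 1 < K ^ 2 then 1 / 4 else if j + 1 = K ^ 2 then 1 / (4 * K)
    else if j < K ^ 2 + 3 then τ else 0

/-- the Perron vector -/
noncomputable def vv (j : ℕ) : ℝ := if j < K ^ 2 then 1 / K else 1

/-- the diagonal -/
noncomputable def dd (j : ℕ) : ℝ :=
  1 - (if j = 0 then 0 else ww K τ (j - 1) * vv K (j - 1) / vv K j) -
    ww K τ j * vv K (j + 1) / vv K j

/-- the matrix -/
noncomputable def PP : Matrix (Fin (K ^ 2 + 4)) (Fin (K ^ 2 + 4)) ℝ := fun i j =>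
  (if (j : ℕ) = i then dd K τ i else 0) + (if (j : ℕ) = i + 1 then ww K τ i else 0) +
    (if (i : ℕ) = j + 1 then ww K τ j else 0)

theorem ww_flat {j : ℕ} (h : j + 1 < K ^ 2) : ww K τ j = 1 / 4 := by rw [ww, if_pos h]
theorem ww_last {j : ℕ} (h : j + 1 = K ^ 2) : ww K τ j = 1 / (4 * K) := by
  rw [ww, if_neg (by omega), if_pos h]
theorem ww_r {j : ℕ} (h : K ^ 2 ≤ j) (h2 : j < K ^ 2 + 3) : ww K τ j = τ := by
  rw [ww, if_neg (by omega), if_neg (by omega), if_pos h2]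
theorem ww_end {j : ℕ} (h : K ^ 2 + 3 ≤ j) : ww K τ j = 0 := by
  rw [ww, if_neg (by omega), if_neg (by omega), if_neg (by omega)]
theorem vv_flat {j : ℕ} (h : j < K ^ 2) : vv K j = 1 / K := by rw [vv, if_pos h]
theorem vv_r {j : ℕ} (h : K ^ 2 ≤ j) : vv K j = 1 := by rw [vv, if_neg (by omega)]

theorem PP_symm (r s : Fin (K ^ 2 + 4)) : PP K τ r s = PP K τ s r := by
  unfold PP
  by_cases h : (r : ℕ) = s
  · have : r = s := Fin.ext h
    rw [this]
  · rw [if_neg (fun h' => h h'.symm), if_neg h]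
    ring

theorem row {E : Type*} [CommRing E] [Algebra ℝ E] (x : ℕ → E) (i : Fin (K ^ 2 + 4)) :
    ∑ j : Fin (K ^ 2 + 4), algebraMap ℝ E (PP K τ i j) * x j =
      algebraMap ℝ E (dd K τ i) * x i + algebraMap ℝ E (ww K τ i) * x (i + 1) +
      (if (i : ℕ) = 0 then 0 else algebraMap ℝ E (ww K τ (i - 1)) * x (i - 1)) := by
  have hi := i.isLt
  have e : ∑ j : Fin (K ^ 2 + 4), algebraMap ℝ E (PP K τ i j) * x j =
      ∑ j ∈ Finset.range (K ^ 2 + 4), ((if j = i then algebraMap ℝ E (dd K τ i) * x j else 0) +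
        (if j = i + 1 then algebraMap ℝ E (ww K τ i) * x j else 0) +
        (if (i : ℕ) = j + 1 then algebraMap ℝ E (ww K τ j) * x j else 0)) := by
    rw [← Fin.sum_univ_eq_sum_range (fun j => (if j = i then algebraMap ℝ E (dd K τ i) * x j else 0) +
        (if j = i + 1 then algebraMap ℝ E (ww K τ i) * x j else 0) +
        (if (i : ℕ) = j + 1 then algebraMap ℝ E (ww K τ j) * x j else 0))]
    refine Finset.sum_congr rfl fun j _ => ?_
    rw [PP, map_add, map_add, add_mul, add_mul]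
    congr 1
    · congr 1
      · split_ifs <;> simp
      · split_ifs <;> simp
    · split_ifs <;> simp
  rw [e, Finset.sum_add_distrib, Finset.sum_add_distrib, Finset.sum_ite_eq' , if_pos (by simp)]
  congr 1
  · congr 1
    rw [Finset.sum_ite_eq']
    split_ifs with h
    · rfl
    · rw [ww_end K τ (by simp at h; omega)]
      simp
  · split_ifs with h
    · refine Finset.sum_eq_zero fun j _ => ?_
      rw [if_neg (by omega)]
    · have e2 : ∀ j, (if (i : ℕ) = j + 1 then algebraMap ℝ E (ww K τ j) * x j else 0) =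
          (if j = (i : ℕ) - 1 then algebraMap ℝ E (ww K τ j) * x j else 0) := fun j => by
        by_cases h2 : (i : ℕ) = j + 1
        · rw [if_pos h2, if_pos (by omega)]
        · rw [if_neg h2, if_neg (by omega)]
      simp only [e2]
      rw [Finset.sum_ite_eq', if_pos (by simp; omega)]

variable {K τ}

theorem vv_pos (hK : 0 < K) (j : ℕ) : 0 < vv K j := by
  have : (0 : ℝ) < K := by exact_mod_cast hK
  unfold vv
  split_ifs <;> positivity

theorem dd_zero (hK : 2 ≤ K) : dd K τ 0 = 3 / 4 := by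
  have h4 : 4 ≤ K ^ 2 := by nlinarith
  have hK0 : (K : ℝ) ≠ 0 := by exact_mod_cast (by omega : K ≠ 0)
  rw [dd, if_pos rfl, ww_flat K τ (by omega), vv_flat K (by omega), vv_flat K (by omega)]
  field_simp
  ring

theorem dd_flat (hK : 2 ≤ K) {j : ℕ} (h0 : 0 < j) (h : j < K ^ 2) : dd K τ j = 1 / 2 := by
  have h4 : 4 ≤ K ^ 2 := by nlinarith
  have hK0 : (K : ℝ) ≠ 0 := by exact_mod_cast (by omega : K ≠ 0)
  rw [dd, if_neg (by omega), ww_flat K τ (by omega : j - 1 + 1 < K ^ 2),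
    vv_flat K (by omega : j - 1 < K ^ 2), vv_flat K h]
  rcases Nat.lt_or_ge (j + 1) (K ^ 2) with h2 | h2
  · rw [ww_flat K τ h2, vv_flat K h2]
    field_simp
    ring
  · rw [ww_last K τ (by omega), vv_r K (by omega)]
    field_simp
    ring

theorem dd_m (hK : 2 ≤ K) : dd K τ (K ^ 2) = 1 - 1 / (4 * (K : ℝ) ^ 2) - τ := by
  have h4 : 4 ≤ K ^ 2 := by nlinarith
  have hK0 : (K : ℝ) ≠ 0 := by exact_mod_cast (by omega : K ≠ 0)
  rw [dd, if_neg (by omega), ww_last K τ (by omega), vv_flat K (by omega : K ^ 2 - 1 < K ^ 2),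
    vv_r K le_rfl, ww_r K τ le_rfl (by omega), vv_r K (by omega)]
  field_simp

theorem dd_r (_hK : 2 ≤ K) {j : ℕ} (h1 : K ^ 2 < j) (h2 : j < K ^ 2 + 3) :
    dd K τ j = 1 - 2 * τ := by
  rw [dd, if_neg (by omega), ww_r K τ (by omega) (by omega), vv_r K (by omega), vv_r K (by omega),
    ww_r K τ (by omega) h2, vv_r K (by omega)]
  ring

theorem dd_end (_hK : 2 ≤ K) : dd K τ (K ^ 2 + 3) = 1 - τ := by
  rw [dd, if_neg (by omega), ww_r K τ (by omega) (by omega), vv_r K (by omega), vv_r K (by omega),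
    ww_end K τ (by omega), vv_r K (by omega)]
  ring

theorem ww_nonneg (hτ : 0 < τ) (j : ℕ) : 0 ≤ ww K τ j := by
  unfold ww
  split_ifs <;> positivity

theorem ww_pos (hK : 2 ≤ K) (hτ : 0 < τ) {j : ℕ} (h : j < K ^ 2 + 3) : 0 < ww K τ j := by
  have hK0 : (0 : ℝ) < K := by exact_mod_cast (by omega : 0 < K)
  unfold ww
  split_ifs <;> positivity

theorem ww_le (hK : 2 ≤ K) (hτ : 0 < τ) (hτ2 : τ ≤ 1 / 4) (j : ℕ) : ww K τ j ≤ 1 / 4 := by
  have hK0 : (2 : ℝ) ≤ K := by exact_mod_cast hK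
  unfold ww
  split_ifs
  · exact le_rfl
  · rw [div_le_div_iff₀ (by positivity) (by norm_num)]
    linarith
  · exact hτ2
  · norm_num

theorem dd_pos (hK : 2 ≤ K) (hτ : 0 < τ) (hτ2 : τ ≤ 1 / 4) {j : ℕ} (h : j < K ^ 2 + 4) :
    0 < dd K τ j := by
  have hK0 : (2 : ℝ) ≤ K := by exact_mod_cast hK
  rcases Nat.eq_zero_or_pos j with h0 | h0
  · rw [h0, dd_zero hK]
    norm_num
  rcases Nat.lt_or_ge j (K ^ 2) with h1 | h1
  · rw [dd_flat hK h0 h1]
    norm_num
  rcases Nat.eq_or_lt_of_le h1 with h2 | h2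
  · rw [← h2, dd_m hK]
    have h3 : 1 / (4 * (K : ℝ) ^ 2) ≤ 1 / 4 := by
      rw [div_le_div_iff₀ (by positivity) (by norm_num)]
      nlinarith
    linarith
  rcases Nat.lt_or_ge j (K ^ 2 + 3) with h3 | h3
  · rw [dd_r hK h2 h3]
    linarith
  · rw [show j = K ^ 2 + 3 by omega, dd_end hK]
    linarith

theorem PP_nonneg (hK : 2 ≤ K) (hτ : 0 < τ) (hτ2 : τ ≤ 1 / 4) (r s : Fin (K ^ 2 + 4)) :
    0 ≤ PP K τ r s := by
  unfold PP
  have h1 := (dd_pos hK hτ hτ2 r.isLt).le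
  have h2 := ww_nonneg (K := K) hτ r
  have h3 := ww_nonneg (K := K) hτ s
  split_ifs <;> linarith

theorem PP_pos (hK : 2 ≤ K) (hτ : 0 < τ) (hτ2 : τ ≤ 1 / 4) (r s : Fin (K ^ 2 + 4))
    (h1 : (r : ℕ) ≤ s + 1) (h2 : (s : ℕ) ≤ r + 1) : 0 < PP K τ r s := by
  have hr := r.isLt
  have hs := s.isLt
  unfold PP
  rcases Nat.lt_trichotomy (r : ℕ) s with h | h | h
  · rw [if_neg (by omega), if_pos (by omega), if_neg (by omega)]
    have := ww_pos hK hτ (by omega : (r : ℕ) < K ^ 2 + 3)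
    linarith
  · rw [if_pos (by omega), if_neg (by omega), if_neg (by omega)]
    have := dd_pos hK hτ hτ2 r.isLt
    linarith
  · rw [if_neg (by omega), if_neg (by omega), if_pos (by omega)]
    have := ww_pos hK hτ (by omega : (s : ℕ) < K ^ 2 + 3)
    linarith

theorem PP_vv (hK : 2 ≤ K) (i : Fin (K ^ 2 + 4)) :
    ∑ j : Fin (K ^ 2 + 4), PP K τ i j * vv K j = vv K i := by
  have h := row K τ (E := ℝ) (vv K) i
  simp only [Algebra.algebraMap_self, RingHom.id_apply] at h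
  rw [h, dd]
  have hv := (vv_pos (by omega : 0 < K) (i : ℕ)).ne'
  split_ifs <;> field_simp <;> ring

theorem admissible (hK : 2 ≤ K) (hτ : 0 < τ) (hτ2 : τ ≤ 1 / 4) : Admissible (PP K τ) where
  symm := PP_symm K τ
  zero := fun r s h => by
    unfold PP
    rw [if_neg (by omega), if_neg (by omega), if_neg (by omega)]
    ring
  pos := fun r s h => PP_pos hK hτ hτ2 r s h.1 h.2
  radius := rho_eq_one (PP_nonneg hK hτ hτ2) (fun i => vv_pos (by omega) i) (PP_vv hK) (by omega)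
  col := fun s => by
    have h := row K τ (E := ℝ) (fun _ => 1) s
    simp only [Algebra.algebraMap_self, RingHom.id_apply, mul_one] at h
    have e : ∀ r : Fin (K ^ 2 + 4), (if (r : ℕ) + 1 = s ∨ (s : ℕ) + 1 = r then PP K τ r s else 0) =
        PP K τ s r - (if r = s then dd K τ s else 0) := by
      intro r
      rw [PP_symm K τ s r]
      by_cases h1 : r = s
      · subst h1
        rw [if_neg (by omega), if_pos rfl]
        unfold PP
        rw [if_pos rfl, if_neg (by omega)]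
        ring
      · have h1' : (r : ℕ) ≠ s := fun h => h1 (Fin.ext h)
        rw [if_neg h1]
        split_ifs with h2
        · ring
        · unfold PP
          rw [if_neg (by omega), if_neg (by omega), if_neg (by omega)]
          ring
    simp only [e]
    rw [Finset.sum_sub_distrib, h, Finset.sum_ite_eq', if_pos (Finset.mem_univ _)]
    have h1 := ww_le hK hτ hτ2 (s : ℕ)
    have h2 := ww_le hK hτ hτ2 ((s : ℕ) - 1)
    split_ifs <;> linarith

end

/-! ### The approximate solution -/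

noncomputable def qq : ℂ := 900 - 596 * Complex.I
noncomputable def DD : ℂ := 1840 - 1095 * Complex.I
noncomputable def e0 : ℂ := -499 - 940 * Complex.I
noncomputable def e1 : ℂ := -99 + 30 * Complex.I
noncomputable def e2 : ℂ := 1 + 10 * Complex.I

/-- the bounded correction on the first `K² + 1` sites -/
noncomputable def cor (K : ℕ) (j : ℕ) : ℂ :=
  if j < K ^ 2 then -2 * qq * j * (j + 1)
    else if j = K ^ 2 then -2 * qq * K * (K : ℂ) ^ 2 * ((K : ℂ) ^ 2 + 1) else 0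

noncomputable def lead (K : ℕ) (j : ℕ) : ℂ :=
  if j < K ^ 2 then e0 else if j = K ^ 2 then K * e0 else if j = K ^ 2 + 1 then K * e1
    else if j = K ^ 2 + 2 then K * e2 else if j = K ^ 2 + 3 then K else 0

noncomputable def zh (K : ℕ) (θ : ℝ) (j : ℕ) : ℂ := lead K j / θ + cor K j

/-- the residual -/
noncomputable def RR (K : ℕ) (θ : ℝ) (j : ℕ) : ℂ :=
  (1 + θ * Complex.I) * zh K θ j - ((dd K (θ / 10) j : ℂ) * zh K θ j +
    (ww K (θ / 10) j : ℂ) * zh K θ (j + 1) +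
    (if j = 0 then 0 else (ww K (θ / 10) (j - 1) : ℂ) * zh K θ (j - 1)))

section

variable {K : ℕ} {θ : ℝ}

theorem zh_flat {j : ℕ} (h : j < K ^ 2) : zh K θ j = e0 / θ + -2 * qq * j * (j + 1) := by
  rw [zh, lead, cor, if_pos h, if_pos h]
theorem zh_m : zh K θ (K ^ 2) = K * e0 / θ + -2 * qq * K * (K : ℂ) ^ 2 * ((K : ℂ) ^ 2 + 1) := by
  rw [zh, lead, cor, if_neg (lt_irrefl _), if_pos rfl, if_neg (lt_irrefl _), if_pos rfl]
theorem zh_1 : zh K θ (K ^ 2 + 1) = K * e1 / θ := by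
  rw [zh, lead, cor, if_neg (by omega), if_neg (by omega), if_pos rfl, if_neg (by omega),
    if_neg (by omega), add_zero]
theorem zh_2 : zh K θ (K ^ 2 + 2) = K * e2 / θ := by
  rw [zh, lead, cor, if_neg (by omega), if_neg (by omega), if_neg (by omega), if_pos rfl,
    if_neg (by omega), if_neg (by omega), add_zero]
theorem zh_3 : zh K θ (K ^ 2 + 3) = K / θ := by
  rw [zh, lead, cor, if_neg (by omega), if_neg (by omega), if_neg (by omega), if_neg (by omega),
    if_pos rfl, if_neg (by omega), if_neg (by omega), add_zero]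

theorem RR_flat (hK : 2 ≤ K) (hθ : θ ≠ 0) {j : ℕ} (h : j < K ^ 2) :
    RR K θ j = DD + θ * Complex.I * (-2 * qq * j * (j + 1)) := by
  have h4 : 4 ≤ K ^ 2 := by nlinarith
  have hK0 : (K : ℂ) ≠ 0 := by exact_mod_cast (by omega : K ≠ 0)
  have hθ' : (θ : ℂ) ≠ 0 := by exact_mod_cast hθ
  unfold RR
  rcases Nat.eq_zero_or_pos j with h0 | h0
  · subst h0
    rw [if_pos rfl, dd_zero hK, ww_flat K _ (by omega), zh_flat (by omega), zh_flat (by omega)]
    unfold e0 qq DD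
    push_cast
    field_simp
    ring_nf
    simp only [Complex.I_sq]
    ring
  · rw [if_neg (by omega), dd_flat hK h0 h, ww_flat K _ (by omega : j - 1 + 1 < K ^ 2), zh_flat h,
      zh_flat (by omega : j - 1 < K ^ 2)]
    obtain ⟨i, rfl⟩ : ∃ i, j = i + 1 := ⟨j - 1, by omega⟩
    rw [Nat.add_sub_cancel]
    rcases Nat.lt_or_ge (i + 1 + 1) (K ^ 2) with h2 | h2
    · rw [ww_flat K _ h2, zh_flat h2]
      unfold e0 qq DD
      push_cast
      field_simp
      ring_nf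
      simp only [Complex.I_sq]
      ring
    · have h3 : i + 1 + 1 = K ^ 2 := by omega
      have h4 : (i : ℂ) = (K : ℂ) ^ 2 - 2 := by
        have : ((i + 1 + 1 : ℕ) : ℂ) = ((K ^ 2 : ℕ) : ℂ) := by rw [h3]
        push_cast at this
        linear_combination this
      rw [ww_last K _ h3, h3, zh_m]
      unfold e0 qq DD
      push_cast
      rw [h4]
      field_simp
      ring_nf
      simp only [Complex.I_sq]
      ring

theorem RR_m (hK : 2 ≤ K) (hθ : θ ≠ 0) :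
    RR K θ (K ^ 2) = θ * (Complex.I + 1 / 10) *
      (-2 * qq * K * (K : ℂ) ^ 2 * ((K : ℂ) ^ 2 + 1)) := by
  have h4 : 4 ≤ K ^ 2 := by nlinarith
  have hK0 : (K : ℂ) ≠ 0 := by exact_mod_cast (by omega : K ≠ 0)
  have hθ' : (θ : ℂ) ≠ 0 := by exact_mod_cast hθ
  unfold RR
  have h5 : ((K ^ 2 - 1 : ℕ) : ℂ) = (K : ℂ) ^ 2 - 1 := by
    rw [Nat.cast_sub (by omega)]
    push_cast
    ring
  rw [if_neg (by omega), dd_m hK, ww_r K _ le_rfl (by omega), ww_last K _ (by omega), zh_m, zh_1,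
    zh_flat (by omega : K ^ 2 - 1 < K ^ 2), h5]
  unfold e0 e1 qq
  push_cast
  field_simp
  ring_nf
  simp only [Complex.I_sq]
  ring

theorem RR_1 (hK : 2 ≤ K) (hθ : θ ≠ 0) :
    RR K θ (K ^ 2 + 1) = -(θ / 10) * (-2 * qq * K * (K : ℂ) ^ 2 * ((K : ℂ) ^ 2 + 1)) := by
  have hθ' : (θ : ℂ) ≠ 0 := by exact_mod_cast hθ
  unfold RR
  rw [if_neg (by omega), dd_r hK (by omega) (by omega), ww_r K _ (by omega) (by omega),
    Nat.add_sub_cancel, ww_r K _ le_rfl (by omega), zh_m, zh_1,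
    show K ^ 2 + 1 + 1 = K ^ 2 + 2 by rfl, zh_2]
  unfold e0 e1 e2 qq
  push_cast
  field_simp
  ring_nf
  simp only [Complex.I_sq]
  ring

theorem RR_2 (hK : 2 ≤ K) (hθ : θ ≠ 0) : RR K θ (K ^ 2 + 2) = 0 := by
  have hθ' : (θ : ℂ) ≠ 0 := by exact_mod_cast hθ
  unfold RR
  rw [if_neg (by omega), dd_r hK (by omega) (by omega), ww_r K _ (by omega) (by omega),
    show K ^ 2 + 2 - 1 = K ^ 2 + 1 by omega, ww_r K _ (by omega) (by omega), zh_1, zh_2,
    show K ^ 2 + 2 + 1 = K ^ 2 + 3 by rfl, zh_3]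
  unfold e1 e2
  push_cast
  field_simp
  ring_nf
  simp only [Complex.I_sq]
  ring

theorem RR_3 (hK : 2 ≤ K) (hθ : θ ≠ 0) : RR K θ (K ^ 2 + 3) = 0 := by
  have hθ' : (θ : ℂ) ≠ 0 := by exact_mod_cast hθ
  unfold RR
  rw [if_neg (by omega), dd_end hK, ww_end K _ (by omega),
    show K ^ 2 + 3 - 1 = K ^ 2 + 2 by omega, ww_r K _ (by omega) (by omega), zh_2, zh_3]
  unfold e2
  push_cast
  field_simp
  ring_nf

theorem qq_le : ‖qq‖ ≤ 1500 := by
  unfold qq
  refine (norm_sub_le _ _).trans ?_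
  rw [norm_mul, Complex.norm_I, mul_one]
  norm_num

theorem DD_le : ‖DD‖ ≤ 3000 := by
  unfold DD
  refine (norm_sub_le _ _).trans ?_
  rw [norm_mul, Complex.norm_I, mul_one]
  norm_num

theorem DD_ne : DD ≠ 0 := by
  intro h
  have := congrArg Complex.re h
  unfold DD at this
  simp at this

theorem L_zh (i : Fin (K ^ 2 + 4)) :
    L (PP K (θ / 10)) θ (fun j => zh K θ j) i = RR K θ i := by
  have h := row K (θ / 10) (E := ℂ) (zh K θ) i
  simp only [Complex.coe_algebraMap] at h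
  rw [L, h, RR]

theorem big_le (hK : 10 ^ 7 ≤ K) (hθ : θ = 1 / (10 ^ 4 * (K : ℝ) ^ 6)) :
    θ * ‖-2 * qq * K * (K : ℂ) ^ 2 * ((K : ℂ) ^ 2 + 1)‖ ≤ 6 / 10 := by
  have hK1 : (10 : ℝ) ^ 7 ≤ K := by exact_mod_cast hK
  have hK0 : (0 : ℝ) < K := by linarith [show (0 : ℝ) < 10 ^ 7 by norm_num]
  have hK2 : (1 : ℝ) ≤ (K : ℝ) := by linarith [show (1 : ℝ) ≤ 10 ^ 7 by norm_num]
  have hK3 : (1 : ℝ) ≤ (K : ℝ) ^ 2 := one_le_pow₀ hK2
  have hθ0 : 0 < θ := by rw [hθ]; positivity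
  have h1 : ‖((K : ℂ) ^ 2 + 1)‖ ≤ 2 * (K : ℝ) ^ 2 := by
    refine (norm_add_le _ _).trans ?_
    rw [norm_pow, Complex.norm_natCast, norm_one]
    linarith
  have h2 : ‖-2 * qq * K * (K : ℂ) ^ 2 * ((K : ℂ) ^ 2 + 1)‖ ≤
      2 * 1500 * K * (K : ℝ) ^ 2 * (2 * (K : ℝ) ^ 2) := by
    rw [norm_mul, norm_mul, norm_mul, norm_mul, norm_pow, Complex.norm_natCast, norm_neg,
      Complex.norm_ofNat]
    gcongr
    exact qq_le
  calc θ * ‖-2 * qq * K * (K : ℂ) ^ 2 * ((K : ℂ) ^ 2 + 1)‖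
      ≤ θ * (2 * 1500 * K * (K : ℝ) ^ 2 * (2 * (K : ℝ) ^ 2)) := by gcongr
    _ = 6 / 10 * (1 / K) := by
        rw [hθ]
        field_simp
        norm_num
    _ ≤ 6 / 10 := by
        have : 1 / (K : ℝ) ≤ 1 := by rw [div_le_one hK0]; exact hK2
        linarith

theorem flat_le (hK : 10 ^ 7 ≤ K) (hθ : θ = 1 / (10 ^ 4 * (K : ℝ) ^ 6)) {j : ℕ} (hj : j < K ^ 2) :
    ‖DD - RR K θ j‖ ≤ 1 / (K : ℝ) ^ 2 := by
  have hK1 : (10 : ℝ) ^ 7 ≤ K := by exact_mod_cast hK
  have hK0 : (0 : ℝ) < K := by linarith [show (0 : ℝ) < 10 ^ 7 by norm_num]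
  have hθ0 : 0 < θ := by rw [hθ]; positivity
  rw [RR_flat (by omega) hθ0.ne' hj]
  have e : DD - (DD + θ * Complex.I * (-2 * qq * j * (j + 1))) =
      θ * (Complex.I * (2 * (qq * (j * (j + 1))))) := by ring
  rw [e, norm_mul, norm_mul, norm_mul, norm_mul, norm_mul, Complex.norm_I, Complex.norm_ofNat,
    Complex.norm_real, Real.norm_of_nonneg hθ0.le, Complex.norm_natCast, one_mul]
  have h1 : ‖((j : ℂ) + 1)‖ ≤ (K : ℝ) ^ 2 := by
    have : ((j : ℂ) + 1) = ((j + 1 : ℕ) : ℂ) := by push_cast; ring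
    rw [this, Complex.norm_natCast]
    exact_mod_cast hj
  have h2 : (j : ℝ) ≤ (K : ℝ) ^ 2 := by exact_mod_cast hj.le
  calc θ * (2 * (‖qq‖ * (j * ‖((j : ℂ) + 1)‖)))
      ≤ θ * (2 * (1500 * ((K : ℝ) ^ 2 * (K : ℝ) ^ 2))) := by
        gcongr
        exact qq_le
    _ = 3 / 10 * (1 / (K : ℝ) ^ 2) := by
        rw [hθ]
        field_simp
        norm_num
    _ ≤ 1 / (K : ℝ) ^ 2 := by
        have : 0 ≤ 1 / (K : ℝ) ^ 2 := by positivity
        linarith

theorem res_le (hK : 10 ^ 7 ≤ K) (hθ : θ = 1 / (10 ^ 4 * (K : ℝ) ^ 6)) :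
    ∑ i : Fin (K ^ 2 + 4), ‖DD - RR K θ i‖ ^ 2 ≤ 6005 ^ 2 := by
  have hK1 : (10 : ℝ) ^ 7 ≤ K := by exact_mod_cast hK
  have hK0 : (0 : ℝ) < K := by linarith [show (0 : ℝ) < 10 ^ 7 by norm_num]
  have hK2 : (1 : ℝ) ≤ (K : ℝ) := by linarith [show (1 : ℝ) ≤ 10 ^ 7 by norm_num]
  have hθ0 : 0 < θ := by rw [hθ]; positivity
  have hbig := big_le hK hθ
  have hD := DD_le
  have h0 : ‖DD - RR K θ (K ^ 2)‖ ≤ 3001 := by
    rw [RR_m (by omega) hθ0.ne']
    refine (norm_sub_le _ _).trans ?_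
    rw [norm_mul, norm_mul, Complex.norm_real, Real.norm_of_nonneg hθ0.le]
    have h1 : ‖Complex.I + 1 / 10‖ ≤ 11 / 10 := by
      refine (norm_add_le _ _).trans ?_
      rw [Complex.norm_I]
      norm_num
    have h2 : θ * ‖Complex.I + 1 / 10‖ * ‖-2 * qq * K * (K : ℂ) ^ 2 * ((K : ℂ) ^ 2 + 1)‖ ≤ 1 := by
      calc θ * ‖Complex.I + 1 / 10‖ * ‖-2 * qq * K * (K : ℂ) ^ 2 * ((K : ℂ) ^ 2 + 1)‖
          = ‖Complex.I + 1 / 10‖ * (θ * ‖-2 * qq * K * (K : ℂ) ^ 2 * ((K : ℂ) ^ 2 + 1)‖) := by ring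
        _ ≤ 11 / 10 * (6 / 10) := by gcongr
        _ ≤ 1 := by norm_num
    linarith
  have h1 : ‖DD - RR K θ (K ^ 2 + 1)‖ ≤ 3001 := by
    rw [RR_1 (by omega) hθ0.ne']
    refine (norm_sub_le _ _).trans ?_
    rw [norm_mul, norm_neg]
    have h2 : ‖(θ : ℂ) / 10‖ = θ / 10 := by
      rw [norm_div, Complex.norm_real, Real.norm_of_nonneg hθ0.le]
      norm_num
    rw [h2]
    have h3 : θ / 10 * ‖-2 * qq * K * (K : ℂ) ^ 2 * ((K : ℂ) ^ 2 + 1)‖ =
      1 / 10 * (θ * ‖-2 * qq * K * (K : ℂ) ^ 2 * ((K : ℂ) ^ 2 + 1)‖) := by ring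
    rw [h3]
    linarith
  have h2 : ‖DD - RR K θ (K ^ 2 + 2)‖ ≤ 3001 := by
    rw [RR_2 (by omega) hθ0.ne', sub_zero]
    linarith
  have h3 : ‖DD - RR K θ (K ^ 2 + 3)‖ ≤ 3001 := by
    rw [RR_3 (by omega) hθ0.ne', sub_zero]
    linarith
  have hsq : ∀ x : ℝ, 0 ≤ x → x ≤ 3001 → x ^ 2 ≤ 3001 ^ 2 := fun x hx hx2 =>
    pow_le_pow_left₀ hx hx2 2
  rw [Fin.sum_univ_eq_sum_range (fun i => ‖DD - RR K θ i‖ ^ 2), Finset.sum_range_succ,
    Finset.sum_range_succ, Finset.sum_range_succ, Finset.sum_range_succ]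
  have h4 : ∑ i ∈ Finset.range (K ^ 2), ‖DD - RR K θ i‖ ^ 2 ≤ 1 := by
    calc ∑ i ∈ Finset.range (K ^ 2), ‖DD - RR K θ i‖ ^ 2
        ≤ ∑ i ∈ Finset.range (K ^ 2), (1 / (K : ℝ) ^ 2) ^ 2 := by
          refine Finset.sum_le_sum fun i hi => ?_
          exact pow_le_pow_left₀ (norm_nonneg _) (flat_le hK hθ (Finset.mem_range.1 hi)) 2
      _ = 1 / (K : ℝ) ^ 2 := by
          rw [Finset.sum_const, Finset.card_range, nsmul_eq_mul]
          push_cast
          field_simp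
      _ ≤ 1 := by
          rw [div_le_one (by positivity)]
          exact one_le_pow₀ hK2
  have s0 := hsq _ (norm_nonneg _) h0
  have s1 := hsq _ (norm_nonneg _) h1
  have s2 := hsq _ (norm_nonneg _) h2
  have s3 := hsq _ (norm_nonneg _) h3
  norm_num at s0 s1 s2 s3 ⊢
  linarith

theorem cross_id (a b c : ℂ) :
    ((c.re * b.im - c.im * b.re : ℝ) : ℂ) * a + ((a.re * c.im - a.im * c.re : ℝ) : ℂ) * b +
      ((b.re * a.im - b.im * a.re : ℝ) : ℂ) * c = 0 := by
  apply Complex.ext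
  · simp
    ring
  · simp
    ring

theorem counterexample (hK : 10 ^ 7 ≤ K) :
    ∃ (P : Matrix (Fin (K ^ 2 + 4)) (Fin (K ^ 2 + 4)) ℝ) (c : Fin (K ^ 2 + 4) → ℝ),
      Admissible P ∧ (∀ i, 0 ≤ c i) ∧ ∑ i, c i = 1 ∧ 1 < rho (F P c) := by
  have hK1 : (10 : ℝ) ^ 7 ≤ K := by exact_mod_cast hK
  have hK0 : (0 : ℝ) < K := by linarith [show (0 : ℝ) < 10 ^ 7 by norm_num]
  have hK2 : (1 : ℝ) ≤ (K : ℝ) := by linarith [show (1 : ℝ) ≤ 10 ^ 7 by norm_num]
  set θ : ℝ := 1 / (10 ^ 4 * (K : ℝ) ^ 6) with hθ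
  have hθ0 : 0 < θ := by rw [hθ]; positivity
  have hθ1 : θ ≤ 1 := by
    rw [hθ, div_le_one (by positivity)]
    have : (1 : ℝ) ≤ (K : ℝ) ^ 6 := one_le_pow₀ hK2
    linarith
  have hsymm := PP_symm K (θ / 10)
  obtain ⟨z, hz⟩ := L_surj hsymm hθ0 (fun _ => DD)
  have hz' : ∀ i, L (PP K (θ / 10)) θ z i = DD := fun i => congrFun hz i
  -- the error
  have hx : ∀ i : Fin (K ^ 2 + 4), θ * ‖z i - zh K θ i‖ ≤ 6005 := by
    intro i
    have h1 := L_bound hsymm hθ0 (fun i => z i - zh K θ i)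
    have h2 : ∀ i, L (PP K (θ / 10)) θ (fun i => z i - zh K θ i) i = DD - RR K θ i := by
      intro i
      rw [← hz' i, ← L_zh i]
      simp only [L, mul_sub, Finset.sum_sub_distrib]
      ring
    simp only [h2] at h1
    have h3 : ‖z i - zh K θ i‖ ^ 2 ≤ ∑ i, ‖z i - zh K θ i‖ ^ 2 :=
      Finset.single_le_sum (f := fun i : Fin (K ^ 2 + 4) => ‖z i - zh K θ i‖ ^ 2)
        (fun _ _ => by positivity) (Finset.mem_univ i)
    have h4 : (θ * ‖z i - zh K θ i‖) ^ 2 ≤ 6005 ^ 2 := by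
      rw [mul_pow]
      exact (mul_le_mul_of_nonneg_left h3 (by positivity)).trans (h1.trans (res_le hK hθ))
    exact (sq_le_sq₀ (by positivity) (by norm_num)).1 h4
  set im : Fin (K ^ 2 + 4) := ⟨K ^ 2, by omega⟩ with him
  set i2 : Fin (K ^ 2 + 4) := ⟨K ^ 2 + 2, by omega⟩ with hi2
  set i3 : Fin (K ^ 2 + 4) := ⟨K ^ 2 + 3, by omega⟩ with hi3
  have hKC : (K : ℂ) ≠ 0 := by exact_mod_cast hK0.ne'
  have hθC : (θ : ℂ) ≠ 0 := by exact_mod_cast hθ0.ne'
  have hsc : ‖(θ / K : ℂ)‖ = θ / K := by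
    rw [norm_div, Complex.norm_real, Real.norm_of_nonneg hθ0.le, Complex.norm_natCast]
  have hbd : ∀ (i : Fin (K ^ 2 + 4)) (w : ℂ) (v : ℂ), zh K θ i = K * w / θ + v → θ * ‖v‖ ≤ 6 / 10 →
      ‖(θ / K : ℂ) * z i - w‖ ≤ 1 / 1000 := by
    intro i w v h1 h2
    have e : (θ / K : ℂ) * z i - w = (θ / K : ℂ) * ((z i - zh K θ i) + v) := by
      rw [h1]
      field_simp
      ring
    rw [e, norm_mul, hsc]
    have h3 : θ * ‖(z i - zh K θ i) + v‖ ≤ 6006 := by
      calc θ * ‖(z i - zh K θ i) + v‖ ≤ θ * (‖z i - zh K θ i‖ + ‖v‖) := by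
            gcongr
            exact norm_add_le _ _
        _ = θ * ‖z i - zh K θ i‖ + θ * ‖v‖ := by ring
        _ ≤ 6006 := by linarith [hx i]
    rw [div_mul_eq_mul_div, div_le_iff₀ hK0]
    have h4 : (10 : ℝ) ^ 7 = 10000000 := by norm_num
    rw [h4] at hK1
    linarith
  set a : ℂ := (θ / K : ℂ) * z im with ha
  set b : ℂ := (θ / K : ℂ) * z i2 with hb
  set d : ℂ := (θ / K : ℂ) * z i3 with hd
  have ha1 : ‖a - e0‖ ≤ 1 / 1000 := hbd im e0 _ zh_m (big_le hK hθ)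
  have hb1 : ‖b - e2‖ ≤ 1 / 1000 := hbd i2 e2 0 (by rw [add_zero]; exact zh_2) (by simp; norm_num)
  have hd1 : ‖d - 1‖ ≤ 1 / 1000 := hbd i3 1 0 (by rw [add_zero, mul_one]; exact zh_3)
    (by simp; norm_num)
  have are := (Complex.abs_re_le_norm (a - e0)).trans ha1
  have aim := (Complex.abs_im_le_norm (a - e0)).trans ha1
  have bre := (Complex.abs_re_le_norm (b - e2)).trans hb1
  have bim := (Complex.abs_im_le_norm (b - e2)).trans hb1
  have dre := (Complex.abs_re_le_norm (d - 1)).trans hd1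
  have dim := (Complex.abs_im_le_norm (d - 1)).trans hd1
  simp only [e0, e2, Complex.sub_re, Complex.sub_im, Complex.add_re, Complex.add_im,
    Complex.mul_re, Complex.mul_im, Complex.I_re, Complex.I_im, Complex.one_re, Complex.one_im,
    Complex.neg_re, Complex.neg_im, Complex.re_ofNat, Complex.im_ofNat, abs_le] at are aim bre bim dre dim
  obtain ⟨are1, are2⟩ := are
  obtain ⟨aim1, aim2⟩ := aim
  obtain ⟨bre1, bre2⟩ := bre
  obtain ⟨bim1, bim2⟩ := bim
  obtain ⟨dre1, dre2⟩ := dre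
  obtain ⟨dim1, dim2⟩ := dim
  set C0 : ℝ := d.re * b.im - d.im * b.re with hC0
  set C3 : ℝ := b.re * a.im - b.im * a.re with hC3
  set C2 : ℝ := a.re * d.im - a.im * d.re with hC2
  have p0 : 0 < C0 := by rw [hC0]; nlinarith
  have p3 : 0 < C3 := by rw [hC3]; nlinarith
  have p2 : 0 < C2 := by rw [hC2]; nlinarith
  have hid : (C0 : ℂ) * a + (C2 : ℂ) * b + (C3 : ℂ) * d = 0 := by
    exact cross_id a b d
  have hT : 0 < C0 + C2 + C3 := by linarith
  set T := C0 + C2 + C3 with hTdef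
  refine ⟨PP K (θ / 10), fun i => (if i = im then C0 / T else 0) + (if i = i2 then C2 / T else 0) +
    (if i = i3 then C3 / T else 0), admissible (by omega) (by positivity) (by linarith), fun i => ?_,
    ?_, ?_⟩
  · have q0 : 0 ≤ C0 / T := by positivity
    have q2 : 0 ≤ C2 / T := by positivity
    have q3 : 0 ≤ C3 / T := by positivity
    dsimp only
    split_ifs <;> linarith
  · rw [Finset.sum_add_distrib, Finset.sum_add_distrib, Finset.sum_ite_eq', Finset.sum_ite_eq',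
      Finset.sum_ite_eq', if_pos (Finset.mem_univ _), if_pos (Finset.mem_univ _),
      if_pos (Finset.mem_univ _), ← add_div, ← add_div]
    exact div_self hT.ne'
  · refine one_lt_rho hsymm hθ0 DD_ne hz' ?_ ?_
    · rw [Finset.sum_add_distrib, Finset.sum_add_distrib, Finset.sum_ite_eq', Finset.sum_ite_eq',
        Finset.sum_ite_eq', if_pos (Finset.mem_univ _), if_pos (Finset.mem_univ _),
        if_pos (Finset.mem_univ _), ← add_div, ← add_div]
      exact div_self hT.ne'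
    · have e : ∀ i, (((if i = im then C0 / T else 0) + (if i = i2 then C2 / T else 0) +
          (if i = i3 then C3 / T else 0) : ℝ) : ℂ) * z i =
          (if i = im then ((C0 / T : ℝ) : ℂ) * z i else 0) +
          (if i = i2 then ((C2 / T : ℝ) : ℂ) * z i else 0) +
          (if i = i3 then ((C3 / T : ℝ) : ℂ) * z i else 0) := by
        intro i
        have hite : ∀ (p : Prop) [Decidable p] (x : ℝ) (w : ℂ),
            ((if p then x else 0 : ℝ) : ℂ) * w = if p then (x : ℂ) * w else 0 := by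
          intro p _ x w
          split_ifs <;> simp
        rw [Complex.ofReal_add, Complex.ofReal_add, add_mul, add_mul, hite, hite, hite]
      simp only [e]
      rw [Finset.sum_add_distrib, Finset.sum_add_distrib, Finset.sum_ite_eq', Finset.sum_ite_eq',
        Finset.sum_ite_eq', if_pos (Finset.mem_univ _), if_pos (Finset.mem_univ _),
        if_pos (Finset.mem_univ _)]
      have hTC : (T : ℂ) ≠ 0 := by exact_mod_cast hT.ne'
      have e2 : (θ / K : ℂ) * T * (((C0 / T : ℝ) : ℂ) * z im + ((C2 / T : ℝ) : ℂ) * z i2 +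
          ((C3 / T : ℝ) : ℂ) * z i3) = 0 := by
        rw [← hid, ha, hb, hd]
        push_cast
        field_simp
      exact (mul_eq_zero.1 e2).resolve_left (mul_ne_zero (div_ne_zero hθC hKC) hTC)

end

/-- Q1 is false: there are an order `n`, a matrix `P` satisfying the three conditions and a
nonnegative vector `c` with entries summing to `1` such that the spectral radius of
`F = (I - c eᵀ) P` is greater than `1`; every `n = K² + 4` with `K ≥ 10⁷` is such an order. -/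
theorem result :
    (∀ K : ℕ, 10 ^ 7 ≤ K → ∃ (P : Matrix (Fin (K ^ 2 + 4)) (Fin (K ^ 2 + 4)) ℝ)
      (c : Fin (K ^ 2 + 4) → ℝ), Admissible P ∧ (∀ i, 0 ≤ c i) ∧ ∑ i, c i = 1 ∧ 1 < rho (F P c)) ∧
    ¬ ∀ n : ℕ, 1 ≤ n → ∀ (P : Matrix (Fin n) (Fin n) ℝ) (c : Fin n → ℝ), Admissible P →
      (∀ i, 0 ≤ c i) → ∑ i, c i = 1 → rho (F P c) ≤ 1 := by
  refine ⟨fun K hK => counterexample hK, fun h => ?_⟩
  obtain ⟨K, hK⟩ : ∃ K : ℕ, 10 ^ 7 ≤ K := ⟨_, le_rfl⟩
  obtain ⟨P, c, h1, h2, h3, h4⟩ := counterexample hK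
  exact absurd (h _ (by omega) P c h1 h2 h3) (not_le.2 h4)

end Pool.Agent.Results.MP_8f6a5a_an.Givens
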